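import Pool.Agent.V11257.RegAlg

/-!
# The `m`-completion is not the smallest extension

Let `U` be a set of more than `m` elements and let `Y` be the set of the pairs `(s, u)` with `s` a
finite set of natural numbers and `u ∈ U`.  The algebra `A` consists of the sets of sequences of
elements of `Y` that are determined by finitely many coordinates, where on each coordinate `(s, u)`
only finitely many values of `u` and only finitely many elements of `s` can be recognised.  In every
`m`-completion of `A`, it has value one that all the coordinates of the generic sequence are finite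
sets.  But there is an extension of `A` in which infinitely many coordinates are Cohen reals, and it
preserves all the joins and meets of at most `m` elements that exist in `A`.
-/

set_option autoImplicit false

namespace Pool.Agent.Results.MP_69a01b_lc.CompletionNotSmallest

open Set Pool.Agent.V11257 Pool.Agent.V11257.RegAlg
open scoped Cardinal

/-- A class of sets of at most `m` elements whose joins exist. -/
def IsJoinClass (m : Cardinal.{0}) {A : Type} [BooleanAlgebra A] (J : Set (Set A)) : Prop :=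
  ∀ S ∈ J, Cardinal.mk S ≤ m ∧ ∃ a, IsLUB S a

/-- A class of sets of at most `m` elements whose meets exist. -/
def IsMeetClass (m : Cardinal.{0}) {A : Type} [BooleanAlgebra A] (M : Set (Set A)) : Prop :=
  ∀ S ∈ M, Cardinal.mk S ≤ m ∧ ∃ a, IsGLB S a

/-- Injective homomorphisms. -/
structure IsEmbedding {A B : Type} [BooleanAlgebra A] [BooleanAlgebra B] (i : A → B) : Prop where
  compl : ∀ x, i xᶜ = (i x)ᶜ
  sup : ∀ x y, i (x ⊔ y) = i x ⊔ i y
  injective : Function.Injective i

/-- `(J, M, m)`-extensions of `A`. -/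
structure IsExtension (m : Cardinal.{0}) {A B : Type} [BooleanAlgebra A] [BooleanAlgebra B]
    (J M : Set (Set A)) (i : A → B) : Prop extends IsEmbedding i where
  complete : MComplete m B
  join : ∀ S ∈ J, ∀ a, IsLUB S a → IsLUB (i '' S) (i a)
  meet : ∀ S ∈ M, ∀ a, IsGLB S a → IsGLB (i '' S) (i a)
  generates : MGenerates m (range i)

/-- `m`-completions of `A`. -/
structure IsCompletion (m : Cardinal.{0}) {A B : Type} [BooleanAlgebra A] [BooleanAlgebra B]
    (i : A → B) : Prop extends IsEmbedding i where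
  complete : MComplete m B
  dense : ∀ b : B, b ≠ ⊥ → ∃ a, i a ≠ ⊥ ∧ i a ≤ b
  generates : MGenerates m (range i)

theorem IsEmbedding.inf {A B : Type} [BooleanAlgebra A] [BooleanAlgebra B] {i : A → B}
    (h : IsEmbedding i) (x y : A) : i (x ⊓ y) = i x ⊓ i y := by
  have h1 : x ⊓ y = (xᶜ ⊔ yᶜ)ᶜ := by rw [compl_sup, compl_compl, compl_compl]
  rw [h1, h.compl, h.sup, h.compl, h.compl, compl_sup, compl_compl, compl_compl]

theorem IsEmbedding.mono {A B : Type} [BooleanAlgebra A] [BooleanAlgebra B] {i : A → B}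
    (h : IsEmbedding i) {x y : A} (hxy : x ≤ y) : i x ≤ i y := by
  rw [← sup_eq_right, ← h.sup, sup_eq_right.2 hxy]

theorem IsEmbedding.bot {A B : Type} [BooleanAlgebra A] [BooleanAlgebra B] {i : A → B}
    (h : IsEmbedding i) : i ⊥ = ⊥ := by
  have h1 : i (⊥ ⊓ ⊥ᶜ) = i ⊥ ⊓ (i ⊥)ᶜ := by rw [h.inf, h.compl]
  rwa [inf_compl_self, inf_compl_self] at h1

/-! ## The completion of an algebra -/

section completion

variable (A : Type) [BooleanAlgebra A]

/-- The nonzero elements. -/
abbrev Pos : Type := {a : A // a ≠ ⊥}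

variable {A}

/-- The nonzero elements below an element. -/
def cl (a : A) : LowerSet (Pos A) := ⟨{p | p.1 ≤ a}, fun _ _ hpq hp => le_trans hpq hp⟩

theorem cl_compl (a : A) : (cl a)ᶜ = cl aᶜ := by
  ext p
  rw [SetLike.mem_coe, SetLike.mem_coe, RegAlg.mem_compl]
  constructor
  · intro h
    change p.1 ≤ aᶜ
    rw [le_compl_iff_disjoint_right, disjoint_iff]
    by_contra hne
    exact h ⟨_, hne⟩ (show p.1 ⊓ a ≤ p.1 from inf_le_left) (show p.1 ⊓ a ≤ a from inf_le_right)
  · intro h q hq hqa
    have h1 : q.1 ≤ a ⊓ aᶜ := le_inf hqa (le_trans hq h)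
    rw [inf_compl_self] at h1
    exact q.2 (le_bot_iff.1 h1)

/-- The embedding of `A` in the regular lower sets of nonzero elements. -/
def reg (a : A) : RO (Pos A) := ⟨cl a, isRegular_of_compl (cl_compl a) (by rw [cl_compl, compl_compl])⟩

theorem reg_compl (a : A) : reg aᶜ = (reg a)ᶜ := by
  rw [← Heyting.Regular.coe_inj, Heyting.Regular.coe_compl]
  exact (cl_compl a).symm

theorem reg_inf (a b : A) : reg (a ⊓ b) = reg a ⊓ reg b := by
  rw [← Heyting.Regular.coe_inj, Heyting.Regular.coe_inf]
  ext p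
  exact le_inf_iff

theorem reg_sup (a b : A) : reg (a ⊔ b) = reg a ⊔ reg b := by
  have h1 : a ⊔ b = (aᶜ ⊓ bᶜ)ᶜ := by rw [compl_inf, compl_compl, compl_compl]
  rw [h1, reg_compl, reg_inf, reg_compl, reg_compl]
  have h2 := compl_inf (x := (reg a)ᶜ) (y := (reg b)ᶜ)
  rw [compl_compl, compl_compl] at h2
  exact h2

theorem reg_injective : Function.Injective (reg : A → RO (Pos A)) := by
  have key : ∀ a b : A, reg a = reg b → a ≤ b := by
    intro a b hab
    by_contra hcon
    have hne : a ⊓ bᶜ ≠ ⊥ := by rwa [ne_eq, ← disjoint_iff, disjoint_compl_right_iff]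
    have h1 : (⟨_, hne⟩ : Pos A) ∈ ((reg a : RO (Pos A)) : LowerSet (Pos A)) :=
      show a ⊓ bᶜ ≤ a from inf_le_left
    rw [hab] at h1
    have h2 : a ⊓ bᶜ ≤ b ⊓ bᶜ := le_inf h1 inf_le_right
    rw [inf_compl_self] at h2
    exact hne (le_bot_iff.1 h2)
  intro a b hab
  exact le_antisymm (key a b hab) (key b a hab.symm)

theorem exists_completion (m : Cardinal.{0}) (A : Type) [BooleanAlgebra A] :
    ∃ (B : Type) (_ : BooleanAlgebra B) (i : A → B), IsCompletion m i := by
  let G : Set (RO (Pos A)) := range reg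
  let i : A → mcl m G := fun a => ⟨reg a, subset_car m G ⟨a, rfl⟩⟩
  refine ⟨mcl m G, inferInstance, i, ⟨⟨fun x => Subtype.ext (reg_compl x),
    fun x y => Subtype.ext (reg_sup x y), fun a b hab => reg_injective (congrArg Subtype.val hab)⟩,
    mcomplete_mcl exists_isLUB m G, ?_, ?_⟩⟩
  · intro b hb
    have hb' : b.1 ≠ ⊥ := fun h => hb (Subtype.ext h)
    obtain ⟨p, hp⟩ := exists_mem_of_ne_bot hb'
    refine ⟨p.1, fun h => ?_, ?_⟩
    · have h1 : p ∈ ((reg p.1 : RO (Pos A)) : LowerSet (Pos A)) := le_refl p.1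
      exact ne_bot_of_mem h1 (congrArg Subtype.val h)
    · change reg p.1 ≤ b.1
      rw [← Heyting.Regular.coe_le_coe]
      intro q hq
      exact (b.1 : LowerSet (Pos A)).lower (show q ≤ p from hq) hp
  · have h1 : range i = Subtype.val ⁻¹' G := by
      ext x
      constructor
      · rintro ⟨a, rfl⟩
        exact ⟨a, rfl⟩
      · rintro ⟨a, ha⟩
        exact ⟨a, Subtype.ext ha⟩
    rw [h1]
    exact mgenerates_mcl m G

end completion

/-! ## The algebra of determined sets -/

section determined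

variable (U : Type)

/-- The values of the coordinates. -/
abbrev Val : Type := Finset ℕ × U

/-- The sequences. -/
abbrev Seq : Type := ℕ → Val U

variable {U}

/-- Two sequences that cannot be distinguished on the first `K` coordinates, by recognising the
elements of `F` and the natural numbers below `L`. -/
def Near (K : ℕ) (F : Finset U) (L : ℕ) (x x' : Seq U) : Prop :=
  ∀ k < K, ((x k).2 ∈ F ∨ (x' k).2 ∈ F → x k = x' k) ∧ ∀ j < L, (j ∈ (x k).1 ↔ j ∈ (x' k).1)

theorem Near.mono {K K' : ℕ} {F F' : Finset U} {L L' : ℕ} {x x' : Seq U} (h : Near K' F' L' x x')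
    (hK : K ≤ K') (hF : F ⊆ F') (hL : L ≤ L') : Near K F L x x' := fun k hk =>
  ⟨fun h1 => (h k (by omega)).1 (h1.imp (fun h2 => hF h2) (fun h2 => hF h2)),
    fun j hj => (h k (by omega)).2 j (by omega)⟩

/-- The determined sets of sequences. -/
def Det (a : Set (Seq U)) : Prop :=
  ∃ (K : ℕ) (F : Finset U) (L : ℕ), ∀ x x', Near K F L x x' → (x ∈ a ↔ x' ∈ a)

variable (U) in
/-- The algebra of the determined sets. -/
def alg : BooleanSubalgebra (Set (Seq U)) where
  carrier := {a | Det a}
  supClosed' := by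
    classical
    rintro a ⟨K, F, L, h⟩ b ⟨K', F', L', h'⟩
    refine ⟨max K K', F ∪ F', max L L', fun x x' hx => or_congr (h x x' ?_) (h' x x' ?_)⟩
    · exact hx.mono (le_max_left _ _) Finset.subset_union_left (le_max_left _ _)
    · exact hx.mono (le_max_right _ _) Finset.subset_union_right (le_max_right _ _)
  infClosed' := by
    classical
    rintro a ⟨K, F, L, h⟩ b ⟨K', F', L', h'⟩
    refine ⟨max K K', F ∪ F', max L L', fun x x' hx => and_congr (h x x' ?_) (h' x x' ?_)⟩
    · exact hx.mono (le_max_left _ _) Finset.subset_union_left (le_max_left _ _)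
    · exact hx.mono (le_max_right _ _) Finset.subset_union_right (le_max_right _ _)
  compl_mem' := by
    rintro a ⟨K, F, L, h⟩
    exact ⟨K, F, L, fun x x' hx => not_congr (h x x' hx)⟩
  bot_mem' := ⟨0, ∅, 0, fun _ _ _ => Iff.rfl⟩

/-- The sequences whose coordinate `n` does not contain `k`. -/
def av (n k : ℕ) : alg U := ⟨{x | k ∉ (x n).1}, n + 1, ∅, k + 1, fun x x' hx =>
  not_congr ((hx n (by omega)).2 k (by omega))⟩

/-- The sequences with a given coordinate. -/
def eqv (n : ℕ) (y : Val U) : alg U := ⟨{x | x n = y}, n + 1, {y.2}, 0, fun x x' hx => by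
  have h1 := (hx n (by omega)).1
  constructor
  · intro h
    have h2 : x n = y := h
    have h3 := h1 (Or.inl (by rw [h2]; exact Finset.mem_singleton_self _))
    exact h3.symm.trans h2
  · intro h
    have h2 : x' n = y := h
    have h3 := h1 (Or.inr (by rw [h2]; exact Finset.mem_singleton_self _))
    exact h3.trans h2⟩

/-! ## Conditions -/

/-- The information about a coordinate: an atom, or a Cohen condition. -/
abbrev Info (U : Type) : Type := Val U ⊕ (ℕ × Finset ℕ)

/-- `d'` extends `d`. -/
def Ext : Info U → Info U → Prop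
  | .inl y', .inl y => y' = y
  | .inr c', .inr c => c.1 ≤ c'.1 ∧ ∀ j < c.1, (j ∈ c'.2 ↔ j ∈ c.2)
  | .inl _, .inr _ => False
  | .inr _, .inl _ => False

theorem Ext.refl (d : Info U) : Ext d d := by
  cases d with
  | inl y => exact rfl
  | inr c => exact ⟨le_rfl, fun _ _ => Iff.rfl⟩

theorem Ext.trans {d d' d'' : Info U} (h : Ext d d') (h' : Ext d' d'') : Ext d d'' := by
  cases d <;> cases d' <;> cases d''
  · exact Eq.trans h h'
  · exact h'
  · exact h'.elim
  · exact h
  · exact h
  · exact h.elim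
  · exact h'
  · exact ⟨le_trans h'.1 h.1, fun j hj => (h.2 j (lt_of_lt_of_le hj h'.1)).trans (h'.2 j hj)⟩

/-- The conditions. -/
structure Cond (U : Type) where
  /-- The number of the coordinates with information. -/
  len : ℕ
  /-- The information. -/
  val : ℕ → Info U

instance : Preorder (Cond U) where
  le q p := p.len ≤ q.len ∧ ∀ k < p.len, Ext (q.val k) (p.val k)
  le_refl p := ⟨le_rfl, fun _ _ => Ext.refl _⟩
  le_trans r q p hrq hqp := ⟨hqp.1.trans hrq.1, fun k hk =>
    (hrq.2 k (lt_of_lt_of_le hk hqp.1)).trans (hqp.2 k hk)⟩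

/-- The values that agree with the information, up to the exceptional set `F`. -/
def Good (F : Finset U) : Info U → Val U → Prop
  | .inl y, z => z = y
  | .inr c, z => z.2 ∉ F ∧ ∀ j < c.1, (j ∈ z.1 ↔ j ∈ c.2)

theorem Good.mono {F F' : Finset U} {d d' : Info U} {z : Val U} (h : Good F' d' z)
    (hF : F ⊆ F') (hd : Ext d' d) : Good F d z := by
  cases d <;> cases d'
  · exact Eq.trans h hd
  · exact hd.elim
  · exact hd.elim
  · exact ⟨fun h1 => h.1 (hF h1), fun j hj => (h.2 j (lt_of_lt_of_le hj hd.1)).trans (hd.2 j hj)⟩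

/-- The sequences that agree with a condition. -/
def box (F : Finset U) (q : Cond U) : Set (Seq U) := {x | ∀ k < q.len, Good F (q.val k) (x k)}

theorem box_mono {F F' : Finset U} {q q' : Cond U} (hF : F ⊆ F') (hq : q' ≤ q) :
    box F' q' ⊆ box F q := fun _ hx k hk =>
  (hx k (lt_of_lt_of_le hk hq.1)).mono hF (hq.2 k hk)

/-- A value that agrees with the information. -/
def point (u : U) : Info U → Val U
  | .inl y => y
  | .inr c => (c.2, u)

theorem good_point {F : Finset U} {u : U} (hu : u ∉ F) (d : Info U) : Good F d (point u d) := by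
  cases d with
  | inl y => exact rfl
  | inr c => exact ⟨hu, fun _ _ => Iff.rfl⟩

theorem box_nonempty [Infinite U] (F : Finset U) (q : Cond U) : (box F q).Nonempty := by
  obtain ⟨u, hu⟩ := Infinite.exists_notMem_finset F
  exact ⟨fun k => point u (q.val k), fun k _ => good_point hu _⟩

/-- Refine the information at one coordinate. -/
def growInfo (L : ℕ) (s : Finset ℕ) : Info U → Info U
  | .inl y => .inl y
  | .inr c => .inr (max c.1 L, s)

/-- Refine a condition, following a sequence. -/
def grow (q : Cond U) (x : Seq U) (K L : ℕ) : Cond U :=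
  ⟨max q.len K, fun k => if k < q.len then growInfo L (x k).1 (q.val k) else .inl (x k)⟩

theorem grow_le {F : Finset U} {q : Cond U} {x : Seq U} (hx : x ∈ box F q) (K L : ℕ) :
    grow q x K L ≤ q := by
  refine ⟨le_max_left _ _, fun k hk => ?_⟩
  change Ext (if k < q.len then growInfo L (x k).1 (q.val k) else .inl (x k)) (q.val k)
  rw [if_pos hk]
  have h1 := hx k hk
  revert h1
  generalize q.val k = d
  intro h1
  cases d with
  | inl y => exact rfl
  | inr c => exact ⟨le_max_left _ _, h1.2⟩

theorem near_of_grow {F : Finset U} {q : Cond U} {x x' : Seq U} (hx : x ∈ box F q) {K L : ℕ}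
    (hx' : x' ∈ box F (grow q x K L)) : Near K F L x x' := by
  intro k hk
  have h2 : Good F (if k < q.len then growInfo L (x k).1 (q.val k) else .inl (x k)) (x' k) :=
    hx' k (lt_of_lt_of_le hk (le_max_right _ _))
  by_cases hkq : k < q.len
  · rw [if_pos hkq] at h2
    have h1 := hx k hkq
    revert h1 h2
    generalize q.val k = d
    intro h2 h1
    cases d with
    | inl y =>
      have h3 : x k = y := h1
      have h4 : x' k = y := h2
      rw [h3, h4]
      exact ⟨fun _ => rfl, fun _ _ => Iff.rfl⟩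
    | inr c =>
      refine ⟨fun h => ?_, fun j hj => ?_⟩
      · rcases h with h | h
        · exact absurd h h1.1
        · exact absurd h h2.1
      · exact (h2.2 j (lt_of_lt_of_le hj (le_max_right _ _))).symm
  · rw [if_neg hkq] at h2
    have h3 : x' k = x k := h2
    rw [h3]
    exact ⟨fun _ => rfl, fun _ _ => Iff.rfl⟩

/-! ## The embedding of the algebra -/

/-- The conditions that force the generic sequence to be in `a`. -/
def low (a : Set (Seq U)) : LowerSet (Cond U) :=
  ⟨{q | ∃ F, box F q ⊆ a}, fun _ _ hqp ⟨F, hF⟩ => ⟨F, (box_mono (Finset.Subset.refl _) hqp).trans hF⟩⟩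

theorem mem_low {a : Set (Seq U)} {q : Cond U} : q ∈ low a ↔ ∃ F, box F q ⊆ a := Iff.rfl

/-- A condition below `q` that forces the generic sequence to be in `a`. -/
theorem exists_low {a : Set (Seq U)} {K : ℕ} {F : Finset U} {L : ℕ}
    (h : ∀ x x', Near K F L x x' → (x ∈ a ↔ x' ∈ a)) {q : Cond U} {x : Seq U} (hx : x ∈ box F q)
    (hxa : x ∈ a) : ∃ r ≤ q, r ∈ low a :=
  ⟨grow q x K L, grow_le hx K L, F, fun x' hx' => (h x x' (near_of_grow hx hx')).1 hxa⟩

theorem low_compl [Infinite U] {a : Set (Seq U)} (ha : Det a) : (low a)ᶜ = low aᶜ := by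
  classical
  ext q
  rw [SetLike.mem_coe, SetLike.mem_coe, RegAlg.mem_compl]
  constructor
  · intro h
    obtain ⟨K, F, L, hd⟩ := ha
    refine ⟨F, fun x hx hxa => ?_⟩
    obtain ⟨r, hr, hra⟩ := exists_low hd hx hxa
    exact h r hr hra
  · rintro ⟨F, hF⟩ r hr ⟨F', hF'⟩
    obtain ⟨x, hx⟩ := box_nonempty (F ∪ F') r
    exact hF (box_mono Finset.subset_union_left hr hx)
      (hF' (box_mono Finset.subset_union_right le_rfl hx))

/-- The embedding in the algebra of the regular lower sets of conditions. -/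
def emb [Infinite U] (a : alg U) : RO (Cond U) :=
  ⟨low a.1, isRegular_of_compl (low_compl a.2) (by
    rw [low_compl ((alg U).compl_mem a.2), compl_compl])⟩

theorem mem_emb [Infinite U] {a : alg U} {q : Cond U} :
    q ∈ ((emb a : RO (Cond U)) : LowerSet (Cond U)) ↔ ∃ F, box F q ⊆ a.1 := Iff.rfl

theorem emb_compl [Infinite U] (a : alg U) : emb aᶜ = (emb a)ᶜ := by
  rw [← Heyting.Regular.coe_inj, Heyting.Regular.coe_compl]
  exact (low_compl a.2).symm

theorem emb_mono [Infinite U] {a b : alg U} (h : a ≤ b) : emb a ≤ emb b := by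
  rw [← Heyting.Regular.coe_le_coe]
  rintro q ⟨F, hF⟩
  exact ⟨F, hF.trans h⟩

theorem emb_inf [Infinite U] (a b : alg U) : emb (a ⊓ b) = emb a ⊓ emb b := by
  classical
  rw [← Heyting.Regular.coe_inj, Heyting.Regular.coe_inf]
  ext q
  constructor
  · rintro ⟨F, hF⟩
    exact ⟨⟨F, fun x hx => (hF hx).1⟩, ⟨F, fun x hx => (hF hx).2⟩⟩
  · rintro ⟨⟨F, hF⟩, ⟨F', hF'⟩⟩
    exact ⟨F ∪ F', fun x hx => ⟨hF (box_mono Finset.subset_union_left le_rfl hx),
      hF' (box_mono Finset.subset_union_right le_rfl hx)⟩⟩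

theorem emb_sup [Infinite U] (a b : alg U) : emb (a ⊔ b) = emb a ⊔ emb b := by
  have h1 : a ⊔ b = (aᶜ ⊓ bᶜ)ᶜ := by rw [compl_inf, compl_compl, compl_compl]
  rw [h1, emb_compl, emb_inf, emb_compl, emb_compl]
  have h2 := compl_inf (x := (emb a)ᶜ) (y := (emb b)ᶜ)
  rw [compl_compl, compl_compl] at h2
  exact h2

theorem emb_injective [Infinite U] : Function.Injective (emb : alg U → RO (Cond U)) := by
  have key : ∀ a b : alg U, emb a = emb b → a ≤ b := by
    intro a b hab x hx
    by_contra hxb
    obtain ⟨K, F, L, hd⟩ := (a ⊓ bᶜ).2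
    have h0 : x ∈ box F (⟨0, fun _ => .inl (x 0)⟩ : Cond U) := fun k hk => absurd hk (by simp)
    obtain ⟨r, -, F', hF'⟩ := exists_low hd h0 ⟨hx, hxb⟩
    have h1 : r ∈ ((emb a : RO (Cond U)) : LowerSet (Cond U)) := ⟨F', fun z hz => (hF' hz).1⟩
    rw [hab] at h1
    obtain ⟨F'', hF''⟩ := h1
    classical
    obtain ⟨z, hz⟩ := box_nonempty (F' ∪ F'') r
    exact (hF' (box_mono Finset.subset_union_left le_rfl hz)).2
      (hF'' (box_mono Finset.subset_union_right le_rfl hz))
  intro a b hab
  exact le_antisymm (key a b hab) (key b a hab.symm)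

theorem exists_new (hU : ℵ₀ < Cardinal.mk U) {ι : Type} (hι : Cardinal.mk ι < Cardinal.mk U)
    (F₁ : Finset U) (F : ι → Finset U) : ∃ u, u ∉ F₁ ∧ ∀ s, u ∉ F s := by
  by_contra hcon
  push Not at hcon
  have h1 : Cardinal.mk U ≤ Cardinal.mk ((F₁ : Set U) ∪ ⋃ s, (F s : Set U) : Set U) := by
    rw [← Cardinal.mk_univ]
    refine Cardinal.mk_le_mk_of_subset fun u _ => ?_
    by_cases h : u ∈ F₁
    · exact Or.inl h
    · obtain ⟨s, hs⟩ := hcon u h
      exact Or.inr (mem_iUnion.2 ⟨s, hs⟩)
  refine absurd h1 (not_le.2 ?_)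
  have hfin : ∀ F' : Finset U, Cardinal.mk (F' : Set U) ≤ ℵ₀ := fun F' =>
    (Cardinal.lt_aleph0_iff_set_finite.2 F'.finite_toSet).le
  refine (Cardinal.mk_union_le _ _).trans_lt
    (Cardinal.add_lt_of_lt hU.le ((hfin _).trans_lt hU) ?_)
  refine (Cardinal.mk_iUnion_le_sum_mk).trans_lt ?_
  refine (Cardinal.sum_le_sum _ (fun _ => ℵ₀) fun s => hfin _).trans_lt ?_
  rw [Cardinal.sum_const']
  exact Cardinal.mul_lt_of_lt hU.le hι hU

/-- The embedding preserves the joins of fewer elements than the size of `U`. -/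
theorem emb_join [Infinite U] (hU : ℵ₀ < Cardinal.mk U) {S : Set (alg U)}
    (hS : Cardinal.mk S < Cardinal.mk U) {a : alg U} (h : IsLUB S a) :
    IsLUB (emb '' S) (emb a) := by
  classical
  constructor
  · rintro _ ⟨s, hs, rfl⟩
    exact emb_mono (h.1 hs)
  · intro c hc
    rw [← Heyting.Regular.coe_le_coe]
    intro p hp
    by_contra hpc
    obtain ⟨q, hqp, hq⟩ := exists_compl_of_notMem hpc
    obtain ⟨F₁, hF₁⟩ := (low a.1).lower hqp hp
    have hdet : ∀ s : S, ∃ (K : ℕ) (F : Finset U) (L : ℕ),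
        ∀ x x', Near K F L x x' → (x ∈ s.1.1 ↔ x' ∈ s.1.1) := fun s => s.1.2
    choose K F L hd using hdet
    obtain ⟨u, hu1, hu2⟩ := exists_new hU hS F₁ F
    -- the sequences through the points
    have he : ∀ x x' : Seq U, Near q.len ((Finset.range q.len).image fun k => (point u (q.val k)).2) 0
        x x' → ((∀ k < q.len, x k = point u (q.val k)) → ∀ k < q.len, x' k = point u (q.val k)) := by
      intro x x' hx h1 k hk
      have h2 := (hx k hk).1 (Or.inl (by
        rw [h1 k hk]
        exact Finset.mem_image.2 ⟨k, Finset.mem_range.2 hk, rfl⟩))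
      rw [← h2]
      exact h1 k hk
    let e : alg U := ⟨{x | ∀ k < q.len, x k = point u (q.val k)}, q.len,
      (Finset.range q.len).image fun k => (point u (q.val k)).2, 0, fun x x' hx =>
        ⟨he x x' hx, he x' x fun k hk => ⟨fun h1 => ((hx k hk).1 h1.symm).symm,
          fun j hj => ((hx k hk).2 j hj).symm⟩⟩⟩
    have hgood : ∀ F' : Finset U, u ∉ F' → e.1 ⊆ box F' q := by
      intro F' hF' x hx k hk
      have h1 : x k = point u (q.val k) := hx k hk
      rw [h1]
      exact good_point hF' _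
    have hea : e.1 ⊆ a.1 := (hgood F₁ hu1).trans hF₁
    have hex : ∃ s : S, (e.1 ∩ s.1.1).Nonempty := by
      by_contra hcon
      push Not at hcon
      have h1 : a ≤ eᶜ := h.2 fun s hs => by
        intro x hx hxe
        have h2 := hcon ⟨s, hs⟩
        have h3 : x ∈ e.1 ∩ s.1 := ⟨hxe, hx⟩
        rw [h2] at h3
        exact h3
      have h2 : (fun k => point u (q.val k)) ∈ e.1 := fun _ _ => rfl
      exact h1 (hea h2) h2
    obtain ⟨s, x, hxe, hxs⟩ := hex
    obtain ⟨r, hr, hrs⟩ := exists_low (hd s) (hgood _ (hu2 s) hxe) hxs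
    exact hq r hr (Heyting.Regular.coe_le_coe.2 (hc ⟨s.1, s.2, rfl⟩) hrs)

/-- No condition forces all the coordinates of the generic sequence to be finite sets. -/
theorem no_condition [Infinite U] {T : ℕ → ℕ → RO (Cond U)}
    {T' : ℕ → RO (Cond U)} {T'' : RO (Cond U)}
    (h1 : ∀ n j, IsGLB ((fun k => emb (av n k)) '' {k | j ≤ k}) (T n j))
    (h2 : ∀ n, IsLUB (range (T n)) (T' n)) (h3 : IsGLB (range T') T'') : T'' = ⊥ := by
  by_contra hne
  obtain ⟨p, hp⟩ := exists_mem_of_ne_bot hne
  let q : Cond U := ⟨p.len + 1, fun k => if k < p.len then p.val k else .inr (0, ∅)⟩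
  have hqp : q ≤ p := ⟨Nat.le_succ _, fun k hk => by
    change Ext (if k < p.len then p.val k else .inr (0, ∅)) (p.val k)
    rw [if_pos hk]
    exact Ext.refl _⟩
  have hq : q ∈ ((T' p.len : RO (Cond U)) : LowerSet (Cond U)) :=
    (mem_isGLB h3).1 ((T'' : LowerSet (Cond U)).lower hqp hp) _ ⟨p.len, rfl⟩
  obtain ⟨r, hrq, _, ⟨j, rfl⟩, hr⟩ := exists_of_mem_isLUB (h2 p.len) hq
  have hr' := (mem_isGLB (h1 p.len j)).1 hr
  have hlen : p.len < r.len := lt_of_lt_of_le (Nat.lt_succ_self _) hrq.1
  have hinfo : Ext (r.val p.len) (.inr (0, ∅)) := by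
    have h4 := hrq.2 p.len (Nat.lt_succ_self _)
    change Ext (r.val p.len) (if p.len < p.len then p.val p.len else .inr (0, ∅)) at h4
    rwa [if_neg (lt_irrefl _)] at h4
  have hex : ∃ c, r.val p.len = .inr c := by
    revert hinfo
    generalize r.val p.len = d
    intro hinfo
    cases d with
    | inl y => exact hinfo.elim
    | inr c => exact ⟨c, rfl⟩
  obtain ⟨c, hc⟩ := hex
  obtain ⟨F, hF⟩ := hr' _ ⟨max j c.1, (le_max_left _ _ : j ≤ max j c.1), rfl⟩
  obtain ⟨x, hx⟩ := box_nonempty F r
  classical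
  let s : Finset ℕ := insert (max j c.1) (x p.len).1
  have hx' : Function.update x p.len (s, (x p.len).2) ∈ box F r := by
    intro k hk
    by_cases hkp : k = p.len
    · subst hkp
      rw [Function.update_self, hc]
      have h5 := hx _ hk
      rw [hc] at h5
      refine ⟨h5.1, fun i hi => ?_⟩
      rw [← h5.2 i hi, Finset.mem_insert]
      have : i ≠ max j c.1 := by
        have := le_max_right j c.1
        omega
      simp only [this, false_or]
    · rw [Function.update_of_ne hkp]
      exact hx k hk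
  have h6 := hF hx'
  change max j c.1 ∉ (Function.update x p.len (s, (x p.len).2) p.len).1 at h6
  rw [Function.update_self] at h6
  exact h6 (Finset.mem_insert_self _ _)

end determined

/-- **The `m`-completion is not the smallest extension.**  For every infinite cardinal `m` there is a
Boolean algebra `A` such that for all classes `J` and `M` of sets of at most `m` elements whose joins,
respectively meets, exist in `A`, there is a `(J, M, m)`-extension `(i', B')` of `A` such that for no
`m`-completion `(i, B)` of `A` there is an `m`-homomorphism `h` of `B'` in `B` with `i = h ∘ i'`. The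
algebra `A` has an `m`-completion. -/
theorem result (m : Cardinal.{0}) (hm : ℵ₀ ≤ m) : ∃ (A : Type) (_ : BooleanAlgebra A),
    (∃ (B : Type) (_ : BooleanAlgebra B) (i : A → B), IsCompletion m i) ∧
    ∀ J M : Set (Set A), IsJoinClass m J → IsMeetClass m M →
      ∃ (B' : Type) (_ : BooleanAlgebra B') (i' : A → B'), IsExtension m J M i' ∧
        ∀ (B : Type) [BooleanAlgebra B] (i : A → B), IsCompletion m i →
          ¬ ∃ h : B' → B, IsMHom m h ∧ i = h ∘ i' := by
  let U : Type := Quotient.out (2 ^ m : Cardinal.{0})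
  have hU : m < Cardinal.mk U := by
    rw [Cardinal.mk_out]
    exact Cardinal.cantor m
  have hU' : ℵ₀ < Cardinal.mk U := hm.trans_lt hU
  have hinf : Infinite U := Cardinal.infinite_iff.2 hU'.le
  refine ⟨alg U, inferInstance, exists_completion m _, fun J M hJ hM => ?_⟩
  let G : Set (RO (Cond U)) := range emb
  let i' : alg U → mcl m G := fun a => ⟨emb a, subset_car m G ⟨a, rfl⟩⟩
  have himg : ∀ S : Set (alg U), Subtype.val '' (i' '' S) = emb '' S := fun S => by
    rw [image_image]
  have hcompl : ∀ a, i' aᶜ = (i' a)ᶜ := fun a => Subtype.ext (emb_compl a)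
  have hjoin : ∀ (S : Set (alg U)) (a : alg U), Cardinal.mk S ≤ m → IsLUB S a →
      IsLUB (i' '' S) (i' a) := by
    intro S a hS h
    apply isLUB_val_of
    rw [himg]
    exact emb_join hU' (hS.trans_lt hU) h
  have hemb : IsEmbedding i' := ⟨hcompl, fun a b => Subtype.ext (emb_sup a b),
    fun a b hab => emb_injective (congrArg Subtype.val hab)⟩
  have hgen : MGenerates m (range i') := by
    have h1 : range i' = Subtype.val ⁻¹' G := by
      ext x
      constructor
      · rintro ⟨a, rfl⟩
        exact ⟨a, rfl⟩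
      · rintro ⟨a, ha⟩
        exact ⟨a, Subtype.ext ha⟩
    rw [h1]
    exact mgenerates_mcl m G
  have hcomp : MComplete m (mcl m G) := mcomplete_mcl exists_isLUB m G
  refine ⟨mcl m G, inferInstance, i', ⟨hemb, hcomp, fun S hS a h => hjoin S a (hJ S hS).1 h,
    fun S hS a h => isGLB_of_join hcompl
      (hjoin _ _ (Cardinal.mk_image_le.trans (hM S hS).1)) h, hgen⟩, ?_⟩
  rintro B _ i hi ⟨h, hh, rfl⟩
  -- the elements of the extension
  have hω : ∀ {α : Type} [Countable α] (f : α → mcl m G) (S : Set α),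
      Cardinal.mk (f '' S) ≤ m := fun f S =>
    (Cardinal.mk_le_aleph0_iff.2 (S.to_countable.image f)).trans hm
  have hωr : ∀ {α : Type} [Countable α] (f : α → mcl m G), Cardinal.mk (range f) ≤ m := fun f =>
    (Cardinal.mk_le_aleph0_iff.2 (countable_range f)).trans hm
  choose T hT using fun n j => (hcomp ((fun k => i' (av n k)) '' {k | j ≤ k}) (hω _ _)).2
  choose T' hT' using fun n => (hcomp (range (T n)) (hωr _)).1
  obtain ⟨T'', hT''⟩ := (hcomp (range T') (hωr _)).2
  -- the last one is zero
  have hzero : T'' = ⊥ := by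
    apply Subtype.ext
    have h1 : ∀ n j, IsGLB ((fun k => emb (av n k)) '' {k | j ≤ k}) (T n j).1 := by
      intro n j
      have h2 := isGLB_val exists_isLUB (hω _ _) (hT n j)
      rwa [image_image] at h2
    have h2 : ∀ n, IsLUB (range fun j => (T n j).1) (T' n).1 := by
      intro n
      have h3 := isLUB_val exists_isLUB (hωr _) (hT' n)
      rwa [← range_comp] at h3
    have h3 : IsGLB (range fun n => (T' n).1) T''.1 := by
      have h4 := isGLB_val exists_isLUB (hωr _) hT''
      rwa [← range_comp] at h4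
    exact no_condition h1 h2 h3
  have hmono : ∀ {y z : mcl m G}, y ≤ z → h y ≤ h z := by
    intro y z hyz
    rw [← sup_eq_right, ← hh.sup, sup_eq_right.2 hyz]
  -- but its image is the unit
  have hone : ∀ n, h (T' n) = ⊤ := by
    intro n
    by_contra hne
    have hne' : (h (T' n))ᶜ ≠ ⊥ := fun h1 => hne (compl_eq_bot.1 h1)
    obtain ⟨a, ha0, ha⟩ := hi.dense _ hne'
    have hane : a.1.Nonempty := by
      rw [nonempty_iff_ne_empty]
      intro h1
      apply ha0
      have h2 : a = ⊥ := Subtype.ext h1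
      rw [h2]
      exact hi.toIsEmbedding.bot
    obtain ⟨x, hx⟩ := hane
    let e : alg U := eqv n (x n)
    have hej : ∀ k, (x n).1.sup id + 1 ≤ k → e ≤ av n k := by
      intro k hk y hy hky
      have h1 : y n = x n := hy
      rw [h1] at hky
      have h2 : k ≤ (x n).1.sup id := Finset.le_sup (f := id) hky
      omega
    have he : i' e ≤ T n ((x n).1.sup id + 1) := (hT n _).2 (by
      rintro _ ⟨k, hk, rfl⟩
      exact hemb.mono (hej k hk))
    have he' : h (i' e) ≤ h (T' n) := hmono (he.trans ((hT' n).1 ⟨_, rfl⟩))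
    have h3 : (h ∘ i') (a ⊓ e) = ⊥ := by
      rw [← le_bot_iff, ← inf_compl_self (h (T' n)), hi.toIsEmbedding.inf]
      exact le_inf (inf_le_right.trans he') (inf_le_left.trans ha)
    have h4 : a ⊓ e = ⊥ := hi.injective (h3.trans hi.toIsEmbedding.bot.symm)
    have h5 : x ∈ (a ⊓ e).1 := ⟨hx, rfl⟩
    rw [h4] at h5
    exact h5
  have htop : (⊤ : B) ≤ h T'' := (hh.meet _ (hωr _) _ hT'').2 (by
    rintro _ ⟨_, ⟨n, rfl⟩, rfl⟩
    rw [hone n])
  have hbot : h T'' = ⊥ := by
    have h1 : T'' = i' ⊥ := by rw [hzero, hemb.bot]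
    rw [h1]
    exact hi.toIsEmbedding.bot
  rw [hbot] at htop
  have h1 : (h ∘ i') ⊤ = (h ∘ i') ⊥ := by
    rw [hi.toIsEmbedding.bot, ← le_bot_iff]
    exact le_top.trans htop
  have h2 : (⊤ : alg U) = ⊥ := hi.injective h1
  obtain ⟨u⟩ : Nonempty U := inferInstance
  have h3 : (fun _ => ((∅ : Finset ℕ), u) : Seq U) ∈ (⊤ : alg U).1 := trivial
  rw [h2] at h3
  exact h3

end Pool.Agent.Results.MP_69a01b_lc.CompletionNotSmallest
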